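import Pool.Agent.Y545.MS2
import Pool.Agent.Y545.MS3

/-!
All graphs, each with a few isolated vertices added, such that every problem of monadic
second-order logic can be solved by a finite automaton (in particular in polynomial time).

The definitions `Formula`, `Sentence`, `Models`, `cliqueWidth`, `GraphClass`, `IsoClosed`,
`LogCliqueWidth`, `encode`, `PolyTimeOn` are those of `Pool/Agent/H685R2/Msol/Defs.lean`;
`pad` (adding isolated vertices) is in `Pool/Agent/Y545/MS1.lean`, `AutomatonOn` in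
`Pool/Agent/Y545/MS2.lean`, `had` (Hadamard graphs) in `Pool/Agent/Y545/MS3.lean`.
-/

namespace Pool.Agent.Results.MP_62751d_lc.PaddedGraphs

open Pool.Agent.H685R2.Msol Pool.Agent.Y545.MS Filter

/-- the class of all graphs isomorphic to a graph `H` of the class `D` together with `a n H`
isolated vertices -/
def padClass (D : GraphClass) (a : (n : ℕ) → SimpleGraph (Fin n) → ℕ) : GraphClass :=
  fun _ G => ∃ (n : ℕ) (H : SimpleGraph (Fin n)), D n H ∧ Nonempty (pad H (a n H) ≃g G)

/-- the class of all finite graphs -/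
def allGraphs : GraphClass := fun _ _ => True

/-- the graphs isomorphic to a Hadamard graph with at least `8` vertices -/
def hadGraphs : GraphClass := fun _ H => ∃ d : ℕ, 3 ≤ d ∧ Nonempty (had d ≃g H)

theorem card_of_mem {a : (n : ℕ) → SimpleGraph (Fin n) → ℕ} {N n : ℕ}
    {G : SimpleGraph (Fin N)} {H : SimpleGraph (Fin n)} (h : Nonempty (pad H (a n H) ≃g G)) :
    N = n + a n H := by
  obtain ⟨f⟩ := h
  have := Nat.card_congr f.toEquiv
  simpa [Nat.card_sum] using this.symm

theorem isoClosed_padClass (D : GraphClass) (a : (n : ℕ) → SimpleGraph (Fin n) → ℕ) :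
    IsoClosed (padClass D a) := by
  rintro N G G' ⟨f⟩ ⟨n, H, hH, ⟨g⟩⟩
  exact ⟨n, H, hH, ⟨g.trans f⟩⟩

/-- the choice of the number of isolated vertices -/
theorem exists_a (φ : ℕ → Sentence) (M n : ℕ) (H : SimpleGraph (Fin n)) :
    ∃ a ≤ M, ∀ i, (∑ j ∈ Finset.range i, 2 ^ rank (φ j)) + 2 ^ i ≤ M →
      ∀ j < i, (Models (pad H a) (φ j) ↔ (n + a).testBit j = true) := by
  classical
  set P : ℕ → Prop := fun i => (∑ j ∈ Finset.range i, 2 ^ rank (φ j)) + 2 ^ i ≤ M with hP
  by_cases hex : ∃ i, P i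
  · have hle : ∀ i, P i → i ≤ M := by
      intro i hi
      have h1 : i < 2 ^ i := Nat.lt_two_pow_self
      have h2 : (∑ j ∈ Finset.range i, 2 ^ rank (φ j)) + 2 ^ i ≤ M := hi
      omega
    obtain ⟨i0, hi0⟩ := hex
    set m := Nat.findGreatest P M with hm
    have hPm : P m := Nat.findGreatest_spec (hle i0 hi0) hi0
    obtain ⟨a, ha, ha'⟩ := exists_pad H n m (∑ j ∈ Finset.range m, 2 ^ rank (φ j)) φ (by
      intro j hj
      exact Finset.single_le_sum (f := fun j => 2 ^ rank (φ j)) (fun _ _ => Nat.zero_le _)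
        (Finset.mem_range.2 hj))
    refine ⟨a, by have : (∑ j ∈ Finset.range m, 2 ^ rank (φ j)) + 2 ^ m ≤ M := hPm; omega, ?_⟩
    intro i hi j hj
    have him : i ≤ m := Nat.le_findGreatest (hle i hi) hi
    exact ha' j (by omega)
  · push Not at hex
    exact ⟨0, Nat.zero_le _, fun i hi => absurd hi (hex i)⟩

theorem result (g : ℕ → ℕ) (hg : Tendsto g atTop atTop) :
    ∃ a : (n : ℕ) → SimpleGraph (Fin n) → ℕ,
      (∀ (n : ℕ) (H : SimpleGraph (Fin n)), a n H ≤ g n) ∧
      (∀ φ : Sentence, ∃ j B : ℕ, ∀ (N : ℕ) (G : SimpleGraph (Fin N)),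
        padClass allGraphs a N G → B < N → (Models G φ ↔ N.testBit j = true)) ∧
      (∀ D : GraphClass, IsoClosed (padClass D a) ∧
        (∀ φ : Sentence, AutomatonOn (padClass D a) φ ∧ PolyTimeOn (padClass D a) φ)) ∧
      (∀ (N : ℕ) (G : SimpleGraph (Fin N)), padClass hadGraphs a N G →
        N ≤ 33 * cliqueWidth G) ∧
      ¬ LogCliqueWidth (padClass hadGraphs a) ∧ ¬ LogCliqueWidth (padClass allGraphs a) := by
  classical
  have : Nonempty Sentence := ⟨Formula.exV (Formula.eq 0 0)⟩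
  obtain ⟨φ, hφ⟩ := exists_surjective_nat Sentence
  choose a ha ha' using fun (n : ℕ) (H : SimpleGraph (Fin n)) =>
    exists_a φ (min (g n) (n / 8)) n H
  have hdig : ∀ ψ : Sentence, ∃ j B : ℕ, ∀ (N : ℕ) (G : SimpleGraph (Fin N)),
      padClass allGraphs a N G → B < N → (Models G ψ ↔ N.testBit j = true) := by
    intro ψ
    obtain ⟨j, rfl⟩ := hφ ψ
    have hlim : Tendsto (fun n => min (g n) (n / 8)) atTop atTop := by
      rw [tendsto_atTop]
      intro b
      filter_upwards [tendsto_atTop.1 hg b, eventually_ge_atTop (8 * b)] with n h1 h2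
      exact le_min h1 (by omega)
    obtain ⟨N1, hN1⟩ := eventually_atTop.1
      (hlim.eventually_ge_atTop ((∑ j ∈ Finset.range (j + 1), 2 ^ rank (φ j)) + 2 ^ (j + 1)))
    refine ⟨j, N1 + ∑ n ∈ Finset.range N1, g n, ?_⟩
    rintro N G ⟨n, H, -, hf⟩ hN
    have hcard := card_of_mem hf
    have hn : N1 ≤ n := by
      by_contra hlt
      push Not at hlt
      have h1 : a n H ≤ g n := (ha n H).trans (min_le_left _ _)
      have h2 : g n ≤ ∑ n ∈ Finset.range N1, g n :=
        Finset.single_le_sum (fun _ _ => Nat.zero_le _) (Finset.mem_range.2 hlt)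
      omega
    obtain ⟨f⟩ := hf
    rw [← models_iso f, ha' n H (j + 1) (hN1 n hn) j (Nat.lt_succ_self j), hcard]
  have hauto : ∀ (D : GraphClass) (ψ : Sentence), AutomatonOn (padClass D a) ψ := by
    intro D ψ
    obtain ⟨j, B, h⟩ := hdig ψ
    refine automatonOn_of_digit _ ψ j B fun n G hG hn => ?_
    obtain ⟨m, H, -, hf⟩ := hG
    exact h n G ⟨m, H, trivial, hf⟩ hn
  have hwid : ∀ (N : ℕ) (G : SimpleGraph (Fin N)), padClass hadGraphs a N G →
      N ≤ 33 * cliqueWidth G := by
    rintro N G ⟨n, H, ⟨d, hd, ⟨e⟩⟩, hf⟩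
    have hcard := card_of_mem hf
    have hn : n = 2 ^ d := by
      have := Nat.card_congr e.toEquiv
      simpa using this.symm
    have h8 : 8 * a n H ≤ 2 ^ d := by
      have := (ha n H).trans (min_le_right _ _)
      omega
    obtain ⟨f⟩ := hf
    let e' : pad (had d) (a n H) ≃g pad H (a n H) :=
      { toEquiv := Equiv.sumCongr e.toEquiv (Equiv.refl _)
        map_rel_iff' := by
          rintro (x | x) (y | y)
          · simpa [pad] using e.map_adj_iff
          all_goals simp [pad] }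
    have h := le_cliqueWidth_had hd h8
    rw [cliqueWidth_iso e', cliqueWidth_iso f] at h
    omega
  have hnot : ¬ LogCliqueWidth (padClass hadGraphs a) := by
    rintro ⟨c, hc⟩
    have ho := (Real.isLittleO_log_id_atTop.bound (c := 1 / (66 * (|c| + 1))) (by positivity))
    have ho' := (tendsto_natCast_atTop_atTop (R := ℝ)).eventually ho
    obtain ⟨N0, hN0⟩ := eventually_atTop.1 ho'
    obtain ⟨d, hd3, hdN⟩ : ∃ d, 3 ≤ d ∧ N0 ≤ 2 ^ d :=
      ⟨max 3 N0, le_max_left _ _,
        (Nat.lt_two_pow_self (n := N0)).le.trans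
          (Nat.pow_le_pow_right (by norm_num) (le_max_right _ _))⟩
    -- a copy of the Hadamard graph on `Fin (2 ^ d)`
    let e0 : (Fin d → Bool) ≃ Fin (2 ^ d) := Fintype.equivFinOfCardEq (by simp)
    let H : SimpleGraph (Fin (2 ^ d)) := (had d).map e0
    let e1 : (Fin (2 ^ d)) ⊕ Fin (a _ H) ≃ Fin (2 ^ d + a _ H) := finSumFinEquiv
    let G : SimpleGraph (Fin (2 ^ d + a _ H)) := (pad H (a _ H)).map e1
    have hG : padClass hadGraphs a _ G :=
      ⟨2 ^ d, H, ⟨d, hd3, ⟨SimpleGraph.Iso.map e0 (had d)⟩⟩, ⟨SimpleGraph.Iso.map e1 _⟩⟩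
    obtain ⟨N, hN⟩ : ∃ N, N = 2 ^ d + a _ H := ⟨_, rfl⟩
    obtain ⟨G, hG⟩ : ∃ G : SimpleGraph (Fin N), padClass hadGraphs a N G := by
      rw [hN]
      exact ⟨G, hG⟩
    have hN1 : N0 ≤ N := hdN.trans (hN ▸ Nat.le_add_right _ _)
    have hN8 : 8 ≤ N := by
      have : 2 ^ 3 ≤ 2 ^ d := Nat.pow_le_pow_right (by norm_num) hd3
      omega
    have h1 := hwid N G hG
    have h2 := hc N G hG (by omega)
    have hlog := hN0 N hN1
    have hN' : (8 : ℝ) ≤ N := by exact_mod_cast hN8
    have hlog0 : 0 ≤ Real.log N := Real.log_nonneg (by linarith)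
    rw [Real.norm_of_nonneg hlog0, id, Real.norm_of_nonneg (by linarith)] at hlog
    have h1' : (N : ℝ) ≤ 33 * cliqueWidth G := by exact_mod_cast h1
    have h6 : c * Real.log N ≤ (|c| + 1) * Real.log N := by
      apply mul_le_mul_of_nonneg_right _ hlog0
      have := le_abs_self c
      linarith
    have h7 : (66 * (|c| + 1)) * Real.log N ≤ N := by
      have hd : (0 : ℝ) < 66 * (|c| + 1) := by positivity
      have := mul_le_mul_of_nonneg_left hlog hd.le
      have h8 : 66 * (|c| + 1) * (1 / (66 * (|c| + 1)) * (N : ℝ)) = N := by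
        field_simp
      linarith
    nlinarith
  refine ⟨a, fun n H => (ha n H).trans (min_le_left _ _), hdig, fun D => ⟨isoClosed_padClass D a,
    fun ψ => ⟨hauto D ψ, (hauto D ψ).polyTimeOn⟩⟩, hwid, hnot, ?_⟩
  rintro ⟨c, hc⟩
  refine hnot ⟨c, fun n G hG hn => hc n G ?_ hn⟩
  obtain ⟨m, H, -, hf⟩ := hG
  exact ⟨m, H, trivial, hf⟩

end Pool.Agent.Results.MP_62751d_lc.PaddedGraphs
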